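import Pool.Agent.Helper78.NF.Root

/-!
# The root: some cell used by the result is never queried (all directions at once)
-/

set_option autoImplicit false

namespace Pool.Agent.Helper78.NF

open Pool.Agent.Helper19.NF

theorem asks_congr {C W Z : Type} {σ S : ℕ} (P : Prog C W Z σ S) (I J : C → W) (q : Fin S) (b : C)
    (hIJ : ∀ c, c ≠ b → I c = J c) (hA : ¬ P.Asks I q b) (b' : C) : P.Asks J q b' ↔ P.Asks I q b' := by
  unfold Prog.Asks
  constructor
  · rintro ⟨j, next, h⟩
    rw [iter_congr P I J q b hIJ hA j] at h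
    exact ⟨j, next, h⟩
  · rintro ⟨j, next, h⟩
    refine ⟨j, next, ?_⟩
    rw [iter_congr P I J q b hIJ hA j]
    exact h

variable {U D B : Type} [Fintype D] [AddCommGroup B]

/-- the directions in which the cell below the result is not queried -/
def missD {Z : Type} {σ S : ℕ} (g : D → Equiv.Perm U) (x0 : U → B) (m : ℕ) (P : Prog B (D → B) Z σ S) (q : Fin S)
    (w : U) (I : B → D → B) : Set D := {c | ¬ P.Asks I q (val g x0 I m (g c w))}

open Classical in
/-- an element of a set, if there is one -/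
noncomputable def pick [Nonempty D] (s : Set D) : D := if h : s.Nonempty then h.some else Classical.arbitrary D

theorem pick_mem [Nonempty D] {s : Set D} (h : s.Nonempty) : pick s ∈ s := by
  unfold pick
  rw [dif_pos h]
  exact h.some_mem

theorem missD_chg {Z : Type} {σ S : ℕ} {g : D → Equiv.Perm U} {x0 : U → B} {m : ℕ} {P : Prog B (D → B) Z σ S}
    {q : Fin S} {w : U} {c : D} (x : (B → D → B) × B) (h : CF g x0 (m + 1) x.1) (hc : c ∈ missD g x0 m P q w x.1) :
    missD g x0 m P q w (chg g x0 m (g c w) c x) = missD g x0 m P q w x.1 := by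
  ext c'
  unfold missD
  rw [Set.mem_ofPred_eq, Set.mem_ofPred_eq, chg_val x h m le_rfl]
  rw [asks_congr P x.1 (chg g x0 m (g c w) c x) q (val g x0 x.1 m (g c w)) ?_ hc]
  intro b hb
  funext d
  unfold chg
  rw [if_neg (fun e => hb e.1)]

/-- F3, all directions at once -/
theorem root_bound_all {Z : Type} [Fintype U] [DecidableEq D] [Nonempty D] [Fintype B] {σ S : ℕ}
    (g : D → Equiv.Perm U) (x0 : U → B)
    (n : ℕ) (hn : 1 ≤ n) (P : Prog B (D → B) Z σ S) (q : Fin S)
    (w : U) (φ : B → Z) (p : ℕ) (hφ : ∀ z, Nat.card {b // φ b = z} ≤ p) :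
    Nat.card {I : B → D → B // CF g x0 n I ∧ P.Outputs I q (φ (val g x0 I n w)) ∧
      ∃ c, ¬ P.Asks I q (val g x0 I (n - 1) (g c w))} * Fintype.card B ≤ p * Nat.card (B → D → B) := by
  classical
  obtain ⟨m, rfl⟩ : ∃ m, n = m + 1 := ⟨n - 1, by omega⟩
  rw [Nat.add_sub_cancel, Nat.card_eq_fintype_card, Fintype.card_subtype, Nat.card_eq_fintype_card]
  set X : Finset (B → D → B) := Finset.univ.filter (fun I => CF g x0 (m + 1) I ∧
    P.Outputs I q (φ (val g x0 I (m + 1) w)) ∧ ∃ c, ¬ P.Asks I q (val g x0 I m (g c w))) with hX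
  have hXm : ∀ I ∈ X, CF g x0 (m + 1) I ∧
    P.Outputs I q (φ (val g x0 I (m + 1) w)) ∧ pick (missD g x0 m P q w I) ∈ missD g x0 m P q w I := by
    intro I hI
    obtain ⟨h1, h2, h3⟩ := (Finset.mem_filter.mp hI).2
    exact ⟨h1, h2, pick_mem h3⟩
  rw [← Finset.card_univ (α := B), ← Finset.card_product, ← Finset.card_univ (α := B → D → B)]
  apply Finset.card_le_mul_card_image_of_maps_to
    (f := fun x => chg g x0 m (g (pick (missD g x0 m P q w x.1)) w) (pick (missD g x0 m P q w x.1)) x)
    (fun _ _ => Finset.mem_univ _)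
  intro J _
  obtain ⟨c, hcdef⟩ : ∃ c, c = pick (missD g x0 m P q w J) := ⟨_, rfl⟩
  -- facts on the members of the fibre
  have fact : ∀ x : (B → D → B) × B, x ∈ X ×ˢ (Finset.univ : Finset B) →
      chg g x0 m (g (pick (missD g x0 m P q w x.1)) w) (pick (missD g x0 m P q w x.1)) x = J →
      pick (missD g x0 m P q w x.1) = c ∧
      chg g x0 m (g c w) c x = J ∧
      val g x0 x.1 m (g c w) = val g x0 J m (g c w) ∧
      val g x0 J (m + 1) w = val g x0 x.1 (m + 1) w + x.2 ∧
      ∀ b d, ¬ (b = val g x0 J m (g c w) ∧ d = c) → J b d = x.1 b d := by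
    intro x hx hJ
    obtain ⟨hCF, _, hpick⟩ := hXm _ (Finset.mem_product.mp hx).1
    have hc : pick (missD g x0 m P q w x.1) = c := by
      rw [hcdef, ← hJ, missD_chg x hCF hpick]
    rw [hc] at hJ
    have h1 : val g x0 x.1 m (g c w) = val g x0 J m (g c w) := by
      rw [← hJ]; exact (chg_val x hCF m le_rfl _).symm
    refine ⟨hc, hJ, h1, ?_, ?_⟩
    · rw [← hJ]; exact chg_top x hCF
    · intro b d hbd
      rw [← hJ]
      unfold chg
      rw [if_neg]
      rw [h1]
      exact hbd
  rcases ((X ×ˢ (Finset.univ : Finset B)).filter (fun x => chg g x0 m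
      (g (pick (missD g x0 m P q w x.1)) w) (pick (missD g x0 m P q w x.1)) x = J)).eq_empty_or_nonempty with
    he | ⟨x', hx'⟩
  · rw [he]; simp
  · rw [Finset.mem_filter] at hx'
    obtain ⟨hx'X, hx'J⟩ := hx'
    obtain ⟨fc', _, f1', f2', f3'⟩ := fact x' hx'X hx'J
    obtain ⟨_, hO', hA'⟩ := hXm _ (Finset.mem_product.mp hx'X).1
    rw [fc'] at hA'
    have hp := hφ (φ (val g x0 x'.1 (m + 1) w))
    rw [Nat.card_eq_fintype_card, Fintype.card_subtype] at hp
    refine le_trans ?_ hp
    apply Finset.card_le_card_of_injOn (fun x => val g x0 x.1 (m + 1) w)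
    · intro x hx
      rw [Finset.mem_coe, Finset.mem_filter] at hx
      obtain ⟨hxX, hxJ⟩ := hx
      obtain ⟨_, _, f1, f2, f3⟩ := fact x hxX hxJ
      obtain ⟨_, hO, _⟩ := hXm _ (Finset.mem_product.mp hxX).1
      rw [Finset.mem_coe, Finset.mem_filter]
      refine ⟨Finset.mem_univ _, ?_⟩
      have hO2 : P.Outputs x.1 q (φ (val g x0 x'.1 (m + 1) w)) := by
        refine outputs_congr P x'.1 x.1 q (val g x0 x'.1 m (g c w)) ?_ hA' hO'
        intro b hb
        funext d
        rw [f1'] at hb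
        rw [← f3' b d (fun h => hb h.1), ← f3 b d (fun h => hb h.1)]
      exact outputs_unique P x.1 q hO hO2
    · intro x hx y hy hxy
      rw [Finset.mem_coe, Finset.mem_filter] at hx hy
      obtain ⟨hxX, hxJ⟩ := hx
      obtain ⟨hyX, hyJ⟩ := hy
      obtain ⟨_, fJ, f1, f2, f3⟩ := fact x hxX hxJ
      obtain ⟨_, kJ, k1, k2, k3⟩ := fact y hyX hyJ
      have hxy' : val g x0 x.1 (m + 1) w = val g x0 y.1 (m + 1) w := hxy
      have e2 : x.2 = y.2 := by
        rw [f2, hxy'] at k2
        exact add_left_cancel k2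
      refine Prod.ext ?_ e2
      funext b d
      by_cases hbd : b = val g x0 J m (g c w) ∧ d = c
      · have a1 : J b d = x.1 b d + x.2 := by
          rw [← fJ]
          unfold chg
          rw [if_pos (by rw [f1]; exact hbd)]
        have a2 : J b d = y.1 b d + y.2 := by
          rw [← kJ]
          unfold chg
          rw [if_pos (by rw [k1]; exact hbd)]
        rw [a1, e2] at a2
        exact add_right_cancel a2
      · rw [← f3 b d hbd, ← k3 b d hbd]

end Pool.Agent.Helper78.NF
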