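import Pool.Agent.Helper19.NF.Defs

/-!
# The root: a cell used by the result is never queried
-/

set_option autoImplicit false

namespace Pool.Agent.Helper78.NF

open Pool.Agent.Helper19.NF

section prog

variable {C W Z : Type} {σ S : ℕ}

theorem step_final (P : Prog C W Z σ S) (I : C → W) (s : Fin S) (z : Z) (h : P.act s = Sum.inr z) :
    P.step I s = s := by
  unfold Prog.step
  rw [h]
  rfl

theorem iter_final (P : Prog C W Z σ S) (I : C → W) (s : Fin S) (z : Z) (h : P.act s = Sum.inr z) (j : ℕ) :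
    (P.step I)^[j] s = s := Function.iterate_fixed (step_final P I s z h) j

theorem outputs_unique (P : Prog C W Z σ S) (I : C → W) (q : Fin S) {z z' : Z} (h : P.Outputs I q z)
    (h' : P.Outputs I q z') : z = z' := by
  obtain ⟨j, hj⟩ := h
  obtain ⟨j', hj'⟩ := h'
  rcases le_total j j' with hle | hle
  · obtain ⟨i, rfl⟩ := Nat.exists_eq_add_of_le hle
    rw [add_comm, Function.iterate_add_apply, iter_final P I _ z hj, hj] at hj'
    exact Sum.inr.inj hj'
  · obtain ⟨i, rfl⟩ := Nat.exists_eq_add_of_le hle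
    rw [add_comm, Function.iterate_add_apply, iter_final P I _ z' hj', hj'] at hj
    exact (Sum.inr.inj hj).symm

/-- changing the content of a cell which is not queried does not change the computation -/
theorem iter_congr (P : Prog C W Z σ S) (I J : C → W) (q : Fin S) (b : C) (hIJ : ∀ c, c ≠ b → I c = J c)
    (hA : ¬ P.Asks I q b) (j : ℕ) : (P.step J)^[j] q = (P.step I)^[j] q := by
  induction j with
  | zero => rfl
  | succ j ih =>
    rw [Function.iterate_succ_apply', Function.iterate_succ_apply', ih]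
    rcases h : P.act ((P.step I)^[j] q) with ⟨c, next⟩ | z
    · have hc : c ≠ b := by
        rintro rfl
        exact hA ⟨j, next, h⟩
      unfold Prog.step at h ⊢
      rw [h]
      simp only [Sum.elim_inl]
      rw [hIJ c hc]
    · rw [step_final P J _ z h, step_final P I _ z h]

theorem outputs_congr (P : Prog C W Z σ S) (I J : C → W) (q : Fin S) (b : C) (hIJ : ∀ c, c ≠ b → I c = J c)
    (hA : ¬ P.Asks I q b) {z : Z} (h : P.Outputs I q z) : P.Outputs J q z := by
  obtain ⟨j, hj⟩ := h
  refine ⟨j, ?_⟩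
  rw [iter_congr P I J q b hIJ hA j]
  exact hj

end prog

section net

variable {U D B : Type} [Fintype D] [AddCommGroup B]

theorem val_zero (g : D → Equiv.Perm U) (x0 : U → B) (I : B → D → B) (w : U) : val g x0 I 0 w = x0 w := rfl

theorem val_succ (g : D → Equiv.Perm U) (x0 : U → B) (I : B → D → B) (i : ℕ) (w : U) :
    val g x0 I (i + 1) w = ∑ c, I (val g x0 I i (g c w)) c := rfl

/-- the rows up to `m` do not change when only the contents of cells which are not used below the row `m` change -/
theorem val_congr (g : D → Equiv.Perm U) (x0 : U → B) (I J : B → D → B) (m : ℕ)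
    (h : ∀ i, i < m → ∀ w, J (val g x0 I i w) = I (val g x0 I i w)) :
    ∀ i, i ≤ m → ∀ w, val g x0 J i w = val g x0 I i w := by
  intro i
  induction i with
  | zero => intro _ _; rfl
  | succ i ih =>
    intro hi w
    rw [val_succ, val_succ]
    refine Finset.sum_congr rfl fun c _ => ?_
    rw [ih (by omega), h i (by omega)]

open Classical in
/-- the change of the entry number `c` of the cell given by the element `v` of the row `m` -/
noncomputable def chg (g : D → Equiv.Perm U) (x0 : U → B) (m : ℕ) (v : U) (c : D) (x : (B → D → B) × B) :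
    B → D → B :=
  fun b d => if b = val g x0 x.1 m v ∧ d = c then x.1 b d + x.2 else x.1 b d

theorem chg_val {g : D → Equiv.Perm U} {x0 : U → B} {m : ℕ} {v : U} {c : D} (x : (B → D → B) × B)
    (h : CF g x0 (m + 1) x.1) : ∀ i, i ≤ m → ∀ w, val g x0 (chg g x0 m v c x) i w = val g x0 x.1 i w := by
  classical
  apply val_congr
  intro i hi w
  funext d
  unfold chg
  rw [if_neg]
  rintro ⟨h1, _⟩
  have := (h i (by omega) m (by omega) w v h1).1
  omega

theorem chg_top {g : D → Equiv.Perm U} {x0 : U → B} {m : ℕ} {w : U} {c : D} (x : (B → D → B) × B)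
    (h : CF g x0 (m + 1) x.1) :
    val g x0 (chg g x0 m (g c w) c x) (m + 1) w = val g x0 x.1 (m + 1) w + x.2 := by
  classical
  rw [val_succ, val_succ, ← Finset.add_sum_erase _ _ (Finset.mem_univ c),
    ← Finset.add_sum_erase Finset.univ (fun d => x.1 (val g x0 x.1 m (g d w)) d) (Finset.mem_univ c)]
  rw [chg_val x h m le_rfl]
  have h1 : ∑ d ∈ Finset.univ.erase c, chg g x0 m (g c w) c x (val g x0 (chg g x0 m (g c w) c x) m (g d w)) d
      = ∑ d ∈ Finset.univ.erase c, x.1 (val g x0 x.1 m (g d w)) d := by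
    refine Finset.sum_congr rfl fun d hd => ?_
    rw [chg_val x h m le_rfl]
    unfold chg
    rw [if_neg]
    rintro ⟨_, h2⟩
    exact (Finset.ne_of_mem_erase hd) h2
  have h2 : chg g x0 m (g c w) c x (val g x0 x.1 m (g c w)) c = x.1 (val g x0 x.1 m (g c w)) c + x.2 := by
    unfold chg
    rw [if_pos ⟨rfl, rfl⟩]
  rw [h1, h2]
  abel

/-- F3 -/
theorem root_bound {Z : Type} [Fintype U] [DecidableEq D] [Fintype B] {σ S : ℕ} (g : D → Equiv.Perm U) (x0 : U → B)
    (n : ℕ) (hn : 1 ≤ n) (P : Prog B (D → B) Z σ S) (q : Fin S)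
    (w : U) (c : D) (φ : B → Z) (p : ℕ) (hφ : ∀ z, Nat.card {b // φ b = z} ≤ p) :
    Nat.card {I : B → D → B // CF g x0 n I ∧ P.Outputs I q (φ (val g x0 I n w)) ∧
      ¬ P.Asks I q (val g x0 I (n - 1) (g c w))} * Fintype.card B ≤ p * Nat.card (B → D → B) := by
  classical
  obtain ⟨m, rfl⟩ : ∃ m, n = m + 1 := ⟨n - 1, by omega⟩
  rw [Nat.add_sub_cancel, Nat.card_eq_fintype_card, Fintype.card_subtype, Nat.card_eq_fintype_card]
  set X : Finset (B → D → B) := Finset.univ.filter (fun I => CF g x0 (m + 1) I ∧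
    P.Outputs I q (φ (val g x0 I (m + 1) w)) ∧ ¬ P.Asks I q (val g x0 I m (g c w))) with hX
  have hXm : ∀ I ∈ X, CF g x0 (m + 1) I ∧
    P.Outputs I q (φ (val g x0 I (m + 1) w)) ∧ ¬ P.Asks I q (val g x0 I m (g c w)) :=
    fun I hI => (Finset.mem_filter.mp hI).2
  rw [← Finset.card_univ (α := B), ← Finset.card_product, ← Finset.card_univ (α := B → D → B)]
  apply Finset.card_le_mul_card_image_of_maps_to (f := chg g x0 m (g c w) c) (fun _ _ => Finset.mem_univ _)
  intro J _
  -- facts on the members of the fibre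
  have fact : ∀ x : (B → D → B) × B, x ∈ X ×ˢ (Finset.univ : Finset B) → chg g x0 m (g c w) c x = J →
      val g x0 x.1 m (g c w) = val g x0 J m (g c w) ∧
      val g x0 J (m + 1) w = val g x0 x.1 (m + 1) w + x.2 ∧
      ∀ b d, ¬ (b = val g x0 J m (g c w) ∧ d = c) → J b d = x.1 b d := by
    intro x hx hJ
    have hCF := (hXm _ (Finset.mem_product.mp hx).1).1
    have h1 : val g x0 x.1 m (g c w) = val g x0 J m (g c w) := by
      rw [← hJ]; exact (chg_val x hCF m le_rfl _).symm
    refine ⟨h1, ?_, ?_⟩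
    · rw [← hJ]; exact chg_top x hCF
    · intro b d hbd
      rw [← hJ]
      unfold chg
      rw [if_neg]
      rw [h1]
      exact hbd
  rcases ((X ×ˢ (Finset.univ : Finset B)).filter (fun x => chg g x0 m (g c w) c x = J)).eq_empty_or_nonempty with
    he | ⟨x', hx'⟩
  · rw [he]; simp
  · rw [Finset.mem_filter] at hx'
    obtain ⟨hx'X, hx'J⟩ := hx'
    obtain ⟨f1', f2', f3'⟩ := fact x' hx'X hx'J
    obtain ⟨_, hO', hA'⟩ := hXm _ (Finset.mem_product.mp hx'X).1
    have hp := hφ (φ (val g x0 x'.1 (m + 1) w))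
    rw [Nat.card_eq_fintype_card, Fintype.card_subtype] at hp
    refine le_trans ?_ hp
    apply Finset.card_le_card_of_injOn (fun x => val g x0 x.1 (m + 1) w)
    · intro x hx
      rw [Finset.mem_coe, Finset.mem_filter] at hx
      obtain ⟨hxX, hxJ⟩ := hx
      obtain ⟨f1, f2, f3⟩ := fact x hxX hxJ
      obtain ⟨_, hO, _⟩ := hXm _ (Finset.mem_product.mp hxX).1
      rw [Finset.mem_coe, Finset.mem_filter]
      refine ⟨Finset.mem_univ _, ?_⟩
      have hO2 : P.Outputs x.1 q (φ (val g x0 x'.1 (m + 1) w)) := by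
        refine outputs_congr P x'.1 x.1 q (val g x0 x'.1 m (g c w)) ?_ hA' hO'
        intro b hb
        funext d
        rw [f1'] at hb
        rw [← f3' b d (fun h => hb h.1), ← f3 b d (fun h => hb h.1)]
      exact outputs_unique P x.1 q hO hO2
    · intro x hx y hy hxy
      rw [Finset.mem_coe, Finset.mem_filter] at hx hy
      obtain ⟨hxX, hxJ⟩ := hx
      obtain ⟨hyX, hyJ⟩ := hy
      obtain ⟨f1, f2, f3⟩ := fact x hxX hxJ
      obtain ⟨k1, k2, k3⟩ := fact y hyX hyJ
      have hxy' : val g x0 x.1 (m + 1) w = val g x0 y.1 (m + 1) w := hxy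
      have e2 : x.2 = y.2 := by
        rw [f2, hxy'] at k2
        exact add_left_cancel k2
      refine Prod.ext ?_ e2
      funext b d
      by_cases hbd : b = val g x0 J m (g c w) ∧ d = c
      · have a1 : J b d = x.1 b d + x.2 := by
          rw [← hxJ]
          unfold chg
          rw [if_pos (by rw [f1]; exact hbd)]
        have a2 : J b d = y.1 b d + y.2 := by
          rw [← hyJ]
          unfold chg
          rw [if_pos (by rw [k1]; exact hbd)]
        rw [a1, e2] at a2
        exact add_right_cancel a2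
      · rw [← f3 b d hbd, ← k3 b d hbd]

end net

end Pool.Agent.Helper78.NF
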